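import Pool.Agent.helper64.OT.SpecG

/-!
# og:MEH, what has to be proved for a set in a host `H` (adapted from `ot:MED`, helper89)
-/

set_option autoImplicit false

namespace Pool.Agent.OG

open Finset Pool.Agent.OT Pool.Agent.SPI Pool.Agent.helper85.PG
open scoped Pointwise

theorem MEH_large (e : ℝ) (he : 0 < e) (M : ℝ) : ∃ p₀ : ℕ, ∀ p : ℕ, p₀ < p → M ≤ (p : ℝ) ^ e := by
  have h := ((tendsto_rpow_atTop he).comp tendsto_natCast_atTop_atTop).eventually_ge_atTop M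
  obtain ⟨p₀, hp₀⟩ := Filter.eventually_atTop.1 h
  exact ⟨p₀, fun p hp => hp₀ p hp.le⟩

theorem MEH (hSIZ : SIZ_stmt) : MEH_stmt := by
  intro ε κ Λ hε hκ hΛ
  obtain ⟨c₁, p₁, hc₁, h₁⟩ := hSIZ ε (κ / 8) hε (by positivity)
  obtain ⟨p₂, h₂⟩ := MEH_large (3 * κ / 16) (by positivity) (Real.sqrt Λ)
  refine ⟨min c₁ (κ / 4), max p₁ p₂, lt_min hc₁ (by positivity), ?_⟩
  intro p _ hp χ H X B β hχ hβ hX hXc hXB hmain
  have hp1 : p₁ < p := (le_max_left _ _).trans_lt hp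
  have hp2 : p₂ < p := (le_max_right _ _).trans_lt hp
  have hpR : (1 : ℝ) ≤ p := by exact_mod_cast (Fact.out : p.Prime).one_lt.le
  have hp0 : (0 : ℝ) < p := by linarith
  have hΛs : Real.sqrt Λ ^ 2 = Λ := Real.sq_sqrt hΛ.le
  have hΛ0 : 0 ≤ Real.sqrt Λ := Real.sqrt_nonneg _
  rcases h₁ p hp1 χ X B hχ hXc hXB with h | ⟨hx1, hx2, hb1, hb2⟩
  · refine (h β hβ).trans (mul_le_mul_of_nonneg_right ?_ (by positivity))
    exact Real.rpow_le_rpow_of_exponent_le hpR (neg_le_neg (min_le_left _ _))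
  · have hM := hmain hb1 hb2
    have hS1 : (∑ x ∈ X, ‖FB χ B β x‖) ^ 2 ≤ X.card * ∑ x ∈ X, ‖FB χ B β x‖ ^ 2 := sq_sum_le_card_mul_sum_sq
    have hS2 : ∑ x ∈ X, ‖FB χ B β x‖ ^ 2 ≤ ∑ x ∈ H, ‖FB χ B β x‖ ^ 2 :=
      Finset.sum_le_sum_of_subset_of_nonneg hX fun x _ _ => by positivity
    have e1 : (p : ℝ) ^ (1 / 2 - κ) = (p : ℝ) ^ (1 / 2 - κ / 8) * ((p : ℝ) ^ (-(7 * κ / 16))) ^ 2 := by
      rw [← Real.rpow_natCast, ← Real.rpow_mul hp0.le, ← Real.rpow_add hp0]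
      congr 1
      push_cast
      ring
    have hS3 : (∑ x ∈ X, ‖FB χ B β x‖) ^ 2 ≤
        (Real.sqrt Λ * (p : ℝ) ^ (-(7 * κ / 16)) * (X.card * B.card)) ^ 2 := by
      refine hS1.trans ?_
      have h3 : (X.card : ℝ) * ∑ x ∈ X, ‖FB χ B β x‖ ^ 2 ≤ X.card * (Λ * (p : ℝ) ^ (1 / 2 - κ) * (B.card : ℝ) ^ 2) :=
        mul_le_mul_of_nonneg_left (hS2.trans hM) (by positivity)
      refine h3.trans ?_
      rw [e1]
      have h4 : (X.card : ℝ) * (Λ * ((p : ℝ) ^ (1 / 2 - κ / 8) * ((p : ℝ) ^ (-(7 * κ / 16))) ^ 2) * (B.card : ℝ) ^ 2) =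
          (X.card : ℝ) * Λ * ((p : ℝ) ^ (-(7 * κ / 16))) ^ 2 * (B.card : ℝ) ^ 2 * (p : ℝ) ^ (1 / 2 - κ / 8) := by ring
      have h5 : (Real.sqrt Λ * (p : ℝ) ^ (-(7 * κ / 16)) * (X.card * B.card)) ^ 2 =
          (X.card : ℝ) * (Real.sqrt Λ ^ 2) * ((p : ℝ) ^ (-(7 * κ / 16))) ^ 2 * (B.card : ℝ) ^ 2 * X.card := by ring
      rw [h4, h5, hΛs]
      exact mul_le_mul_of_nonneg_left hx1 (by positivity)
    have hS4 : ∑ x ∈ X, ‖FB χ B β x‖ ≤ Real.sqrt Λ * (p : ℝ) ^ (-(7 * κ / 16)) * (X.card * B.card) :=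
      le_of_sq_le_sq hS3 (by positivity)
    refine hS4.trans ?_
    have h6 : Real.sqrt Λ * (p : ℝ) ^ (-(7 * κ / 16)) ≤ (p : ℝ) ^ (-min c₁ (κ / 4)) := by
      have h7 : Real.sqrt Λ * (p : ℝ) ^ (-(7 * κ / 16)) ≤ (p : ℝ) ^ (3 * κ / 16) * (p : ℝ) ^ (-(7 * κ / 16)) :=
        mul_le_mul_of_nonneg_right (h₂ p hp2) (by positivity)
      refine h7.trans ?_
      rw [← Real.rpow_add hp0]
      refine Real.rpow_le_rpow_of_exponent_le hpR ?_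
      have h8 := min_le_right c₁ (κ / 4)
      linarith
    refine (mul_le_mul_of_nonneg_right h6 (by positivity)).trans ?_
    refine mul_le_mul_of_nonneg_left ?_ (by positivity)
    have h9 := Real.sqrt_nonneg ((p : ℝ) * (X.card * B.card))
    linarith

end Pool.Agent.OG
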