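import Pool.Agent.helper64.OT.SpecD

set_option autoImplicit false

namespace Pool.Agent.OT

open Finset

theorem P3_sum {α : Type} [Fintype α] [DecidableEq α] (f : α → α → ℝ) :
    ∑ c : α, ∑ c' ∈ univ.filter (fun c' : α => c ≠ c'), f c c' =
      ∑ z ∈ (univ : Finset (α × α)).filter (fun z => z.1 ≠ z.2), f z.1 z.2 := by
  rw [Finset.sum_filter, Fintype.sum_prod_type]
  exact Finset.sum_congr rfl fun c _ => Finset.sum_filter _ _

theorem P3_num (A4 M2 M1 S X N b E Q P N0 : ℝ) (hN : 0 < N) (hb : 0 ≤ b) (hE : 0 ≤ E) (hQ : 0 ≤ Q) (hP : 0 ≤ P)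
    (hN0 : 0 ≤ N0) (hN0' : N0 ≤ 32 * N) (_hA : 0 ≤ A4) (hA' : A4 ≤ 200 * (N0 ^ 2 * P + N0 * Q)) (hM2 : 0 ≤ M2) (hM2' : M2 ≤ N * E)
    (hM1 : 0 ≤ M1) (hM1' : M1 ≤ N * b ^ 2) (hS : S ^ 4 ≤ A4 * M2 * M1 ^ 2)
    (hX : X ≤ 2 * N0 * b + 2 / N * S) : X ≤ 100 * (N * b + b * (E * (N * P + Q)) ^ (1 / 4 : ℝ)) := by
  set Y : ℝ := (E * (N * P + Q)) ^ (1 / 4 : ℝ) with hY
  have hpos : 0 ≤ E * (N * P + Q) := by positivity
  have hY0 : 0 ≤ Y := Real.rpow_nonneg hpos _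
  have hY4 : Y ^ 4 = E * (N * P + Q) := by
    rw [hY, ← Real.rpow_natCast, ← Real.rpow_mul hpos]
    norm_num
  have h1 : N0 ^ 2 * P + N0 * Q ≤ 1024 * N * (N * P + Q) := by
    have h2 : N0 ^ 2 ≤ (32 * N) ^ 2 := pow_le_pow_left₀ hN0 hN0' 2
    have h3 : N0 ^ 2 * P ≤ (32 * N) ^ 2 * P := mul_le_mul_of_nonneg_right h2 hP
    have h4 : N0 * Q ≤ 32 * N * Q := mul_le_mul_of_nonneg_right hN0' hQ
    have h5 : 0 ≤ N * Q := by positivity
    nlinarith
  have h2 : S ^ 4 ≤ (200 * (1024 * N * (N * P + Q))) * (N * E) * (N * b ^ 2) ^ 2 := by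
    refine hS.trans ?_
    have h3 : A4 ≤ 200 * (1024 * N * (N * P + Q)) := hA'.trans (by linarith)
    have h4 : A4 * M2 ≤ (200 * (1024 * N * (N * P + Q))) * (N * E) :=
      mul_le_mul h3 hM2' hM2 (by positivity)
    have h5 : M1 ^ 2 ≤ (N * b ^ 2) ^ 2 := pow_le_pow_left₀ hM1 hM1' 2
    exact mul_le_mul h4 h5 (by positivity) (by positivity)
  have h3 : (200 * (1024 * N * (N * P + Q))) * (N * E) * (N * b ^ 2) ^ 2 = 204800 * (N * b * Y) ^ 4 := by
    rw [mul_pow (N * b) Y 4, hY4]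
    ring
  have h4 : S ^ 4 ≤ (22 * (N * b * Y)) ^ 4 := by
    rw [mul_pow 22 _ 4]
    refine h2.trans (h3.le.trans ?_)
    have : 0 ≤ (N * b * Y) ^ 4 := by positivity
    norm_num
    linarith
  have h5 : S ≤ 22 * (N * b * Y) := by
    by_contra hlt
    push Not at hlt
    have h6 : 0 ≤ 22 * (N * b * Y) := by positivity
    exact absurd h4 (not_le.2 (pow_lt_pow_left₀ hlt h6 (by norm_num)))
  have h6 : 2 / N * S ≤ 44 * (b * Y) := by
    have h7 : 2 / N * S ≤ 2 / N * (22 * (N * b * Y)) := mul_le_mul_of_nonneg_left h5 (by positivity)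
    have h8 : 2 / N * (22 * (N * b * Y)) = 44 * (b * Y) := by
      field_simp
      ring
    linarith
  have h7 : 2 * N0 * b ≤ 64 * (N * b) := by
    have := mul_le_mul_of_nonneg_right hN0' hb
    nlinarith
  have h8 : 0 ≤ N * b := by positivity
  have h9 : 0 ≤ b * Y := by positivity
  linarith

theorem P3 (hM4 : M4_stmt) (hPC1 : PC1_stmt) (hPC2 : PC2_stmt) (hPC3 : PC3_stmt) : P3_stmt := by
  classical
  intro p hp χ N B β hχ hp2 hN h16 hβ
  set T : ℕ := p / (16 * N) with hT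
  have hpp : 0 < p := hp.out.pos
  have h16N : 0 < 16 * N := by omega
  have hT0 : 0 < T := Nat.div_pos h16 h16N
  have hT1 : 16 * N * T ≤ p := Nat.mul_div_le p (16 * N)
  have hT2 : p < 16 * N * (T + 1) := by
    have := Nat.lt_mul_div_succ p h16N
    exact this
  have hT3 : p ≤ 32 * N * T := by nlinarith
  have hTp : T ≤ p := Nat.div_le_self _ _
  have hNp : N ≤ p := by omega
  have hX := hPC1 p χ N T B β hN hT0 hT1 hβ
  have hA := hM4 p χ T hχ hp2 hT0 hTp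
  obtain ⟨hM1, hM2⟩ := hPC2 p N B hN hNp
  rw [P3_sum (fun c c' => ‖Tp χ T (some c) (some c')‖ * (mm N B c c' : ℝ))] at hX
  rw [P3_sum (fun c c' => ‖Tp χ T (some c) (some c')‖ ^ 4)] at hA
  have hC := hPC3 (ZMod p × ZMod p) ((univ : Finset (ZMod p × ZMod p)).filter (fun z => z.1 ≠ z.2))
    (fun z => ‖Tp χ T (some z.1) (some z.2)‖) (fun z => (mm N B z.1 z.2 : ℝ)) (fun _ _ => norm_nonneg _)
    (fun _ _ => Nat.cast_nonneg _)
  have hT0' : (0 : ℝ) < T := by exact_mod_cast hT0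
  have hN' : (0 : ℝ) < N := by exact_mod_cast hN
  have hM1' : ∑ z ∈ (univ : Finset (ZMod p × ZMod p)).filter (fun z => z.1 ≠ z.2), (mm N B z.1 z.2 : ℝ) ≤ N * (B.card : ℝ) ^ 2 := by
    refine le_trans ?_ hM1
    rw [← Fintype.sum_prod_type']
    exact Finset.sum_le_sum_of_subset_of_nonneg (Finset.filter_subset _ _) (fun _ _ _ => Nat.cast_nonneg _)
  have hM2' : ∑ z ∈ (univ : Finset (ZMod p × ZMod p)).filter (fun z => z.1 ≠ z.2), (mm N B z.1 z.2 : ℝ) ^ 2 ≤ N * (EN N B : ℝ) := by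
    refine le_trans ?_ hM2
    rw [← Fintype.sum_prod_type' (fun c c' => (mm N B c c' : ℝ) ^ 2)]
    exact Finset.sum_le_sum_of_subset_of_nonneg (Finset.filter_subset _ _) (fun _ _ _ => by positivity)
  refine P3_num _ _ _ _ _ N B.card (EN N B) ((p : ℝ) ^ (11 / 4 : ℝ)) ((p : ℝ) ^ 2) ((p : ℝ) / T) hN' (Nat.cast_nonneg _)
    (Nat.cast_nonneg _) (by positivity) (by positivity) (by positivity) ?_ ?_ hA ?_ hM2' ?_ hM1' hC hX
  · rw [div_le_iff₀ hT0']
    exact_mod_cast hT3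
  · exact Finset.sum_nonneg fun _ _ => by positivity
  · exact Finset.sum_nonneg fun _ _ => by positivity
  · exact Finset.sum_nonneg fun _ _ => Nat.cast_nonneg _

end Pool.Agent.OT
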