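import Pool.Agent.helper35.OT.Spec

/-!
# Project OT, row MJ
-/

set_option autoImplicit false

namespace Pool.Agent.helper35.OT

open Finset

theorem MJ_even (r : ℕ → ℕ) (x : ℝ) (N : ℕ) :
    ∑ n ∈ range N, (if n % 2 = 0 then (r (n / 2) : ℝ) else 0) * x ^ n =
      ∑ m ∈ range ((N + 1) / 2), (r m : ℝ) * (x ^ 2) ^ m := by
  induction N with
  | zero => simp
  | succ N ih =>
    rw [Finset.sum_range_succ, ih]
    by_cases h : N % 2 = 0
    · have h1 : (N + 1 + 1) / 2 = (N + 1) / 2 + 1 := by omega
      have h2 : (N + 1) / 2 = N / 2 := by omega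
      rw [if_pos h, h1, Finset.sum_range_succ, h2]
      congr 1
      have h3 : N = 2 * (N / 2) := by omega
      rw [← pow_mul, ← h3]
    · have h1 : (N + 1 + 1) / 2 = (N + 1) / 2 := by omega
      rw [if_neg h, h1]
      simp

theorem MJ : MJ_stmt := by
  intro c0 c1 c2 r x y Z hR hx hy hZ hxy
  set f : ℕ → ℝ := fun n => (r n : ℝ) * x ^ n with hf
  have hf0 : ∀ n, 0 ≤ f n := fun n => by
    simp only [hf]; positivity
  have key : ∀ N, ∑ n ∈ range N, f n ≤ y := by
    intro N
    induction N with
    | zero => simpa using hy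
    | succ N ih =>
      rw [Finset.sum_range_succ']
      have h0 : f 0 = 0 := by simp [hf, hR.1]
      rw [h0, add_zero]
      set S : ℝ := ∑ n ∈ range N, f n with hS
      have hS0 : 0 ≤ S := Finset.sum_nonneg (fun n _ => hf0 n)
      have e1 : ∀ n, 2 * f (n + 1) = x * (2 * ((if n = 0 then (c0 : ℝ) else 0) * x ^ n) + 2 * c1 * f n +
          c2 * (∑ i ∈ range (n + 1), f i * f (n - i) + (if n % 2 = 0 then (r (n / 2) : ℝ) else 0) * x ^ n)) := by
        intro n
        have h := hR.2 n
        have h' : (2 * (r (n + 1) : ℝ)) = 2 * (if n = 0 then (c0 : ℝ) else 0) + 2 * c1 * r n +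
            c2 * (∑ i ∈ range (n + 1), (r i : ℝ) * r (n - i) + if n % 2 = 0 then (r (n / 2) : ℝ) else 0) := by
          have := congrArg (fun z : ℕ => (z : ℝ)) h
          push_cast at this
          exact this
        have h2 : ∑ i ∈ range (n + 1), f i * f (n - i) = (∑ i ∈ range (n + 1), (r i : ℝ) * r (n - i)) * x ^ n := by
          rw [Finset.sum_mul]
          apply Finset.sum_congr rfl
          intro i hi
          have hi' : i ≤ n := by have := Finset.mem_range.mp hi; omega
          have h3 : x ^ n = x ^ i * x ^ (n - i) := by rw [← pow_add]; congr 1; omega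
          simp only [hf]
          rw [h3]; ring
        rw [h2]
        have h4 : 2 * f (n + 1) = (2 * (r (n + 1) : ℝ)) * x ^ n * x := by
          simp only [hf]; rw [pow_succ]; ring
        rw [h4, h']
        simp only [hf]
        ring
      have e2 : 2 * ∑ n ∈ range N, f (n + 1) = x * (2 * (∑ n ∈ range N, (if n = 0 then (c0 : ℝ) else 0) * x ^ n) + 2 * c1 * S +
          c2 * (∑ n ∈ range N, ∑ i ∈ range (n + 1), f i * f (n - i) +
            ∑ n ∈ range N, (if n % 2 = 0 then (r (n / 2) : ℝ) else 0) * x ^ n)) := by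
        rw [Finset.mul_sum, Finset.sum_congr rfl (fun n _ => e1 n), ← Finset.mul_sum]
        congr 1
        rw [Finset.sum_add_distrib, Finset.sum_add_distrib, ← Finset.mul_sum, ← Finset.mul_sum, ← Finset.mul_sum,
          Finset.sum_add_distrib]
      have b1 : ∑ n ∈ range N, (if n = 0 then (c0 : ℝ) else 0) * x ^ n ≤ c0 := by
        rcases Nat.eq_zero_or_pos N with h | h
        · subst h; simp
        · rw [Finset.sum_eq_single_of_mem 0 (Finset.mem_range.mpr h)]
          · simp
          · intro n _ hn
            rw [if_neg hn, zero_mul]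
      have b2 : ∑ n ∈ range N, ∑ i ∈ range (n + 1), f i * f (n - i) ≤ y ^ 2 := by
        rw [Finset.sum_range_diag_flip N (fun i j => f i * f j)]
        have h1 : ∑ m ∈ range N, ∑ k ∈ range (N - m), f m * f k ≤ ∑ m ∈ range N, f m * S := by
          apply Finset.sum_le_sum
          intro m _
          rw [← Finset.mul_sum]
          apply mul_le_mul_of_nonneg_left _ (hf0 m)
          apply Finset.sum_le_sum_of_subset_of_nonneg
          · intro k hk
            rw [Finset.mem_range] at hk ⊢
            omega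
          · intro k _ _
            exact hf0 k
        refine h1.trans ?_
        rw [← Finset.sum_mul, ← hS, ← sq]
        exact pow_le_pow_left₀ hS0 ih 2
      have b3 : ∑ n ∈ range N, (if n % 2 = 0 then (r (n / 2) : ℝ) else 0) * x ^ n ≤ Z := by
        rw [MJ_even]
        exact hZ _
      have b4 : (0 : ℝ) ≤ c1 := Nat.cast_nonneg _
      have b5 : (0 : ℝ) ≤ c2 := Nat.cast_nonneg _
      have b6 : x * (2 * (∑ n ∈ range N, (if n = 0 then (c0 : ℝ) else 0) * x ^ n) + 2 * c1 * S +
          c2 * (∑ n ∈ range N, ∑ i ∈ range (n + 1), f i * f (n - i) +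
            ∑ n ∈ range N, (if n % 2 = 0 then (r (n / 2) : ℝ) else 0) * x ^ n)) ≤
          x * (2 * c0 + 2 * c1 * y + c2 * (y ^ 2 + Z)) := by
        apply mul_le_mul_of_nonneg_left _ hx
        have g1 : 2 * c1 * S ≤ 2 * c1 * y := mul_le_mul_of_nonneg_left ih (by positivity)
        have g2 := mul_le_mul_of_nonneg_left (add_le_add b2 b3) b5
        linarith
      have b7 : x * (2 * c0 + 2 * c1 * y + c2 * (y ^ 2 + Z)) = 2 * (x * (c0 + c1 * y + c2 / 2 * (y ^ 2 + Z))) := by ring
      linarith
  constructor
  · exact summable_of_sum_range_le hf0 key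
  · exact Real.tsum_le_of_sum_range_le hf0 key

end Pool.Agent.helper35.OT
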